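import Pool.Agent.Q216.Onto.Main

set_option autoImplicit false

/-!
The propositional fragment `L₁` of Leśniewski's ontology embeds in `S4.2`.
The definitions used in the statement are in `Pool/Agent/Q216/Onto/Defs.lean`.
-/

namespace Pool.Agent.Results.MP_c90ce4_lc.EmbedsInS42

open Pool.Agent.Q216.Onto

/-- The axiom `□p ⊃ p`. -/
def axT : MF := .imp (.box (.var 0)) (.var 0)

/-- The axiom `□p ⊃ □□p`. -/
def ax4 : MF := .imp (.box (.var 0)) (.box (.box (.var 0)))

/-- The axiom `◇□p ⊃ □◇p`. -/
def axDot2 : MF := .imp (.dia (.box (.var 0))) (.box (.dia (.var 0)))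

/-- `S4.2`: the smallest normal modal logic containing the three axioms. -/
def S42 : Set MF := normalLogic {axT, ax4, axDot2}

/-- There is a modal formula `χ(p,q)` whose translation is faithful for `S4.2`. -/
theorem result : ∃ χ : MF, Embeds χ S42 := by
  refine ⟨F₀, embeds_of _ (fun w u => w = u ∨ w = .root ∨ u = .top)
    (fun c => Or.inr (Or.inl rfl)) ?_⟩
  rintro φ (rfl | rfl | rfl) V w
  · unfold axT
    rw [sat_imp]
    intro h
    exact h w (Or.inl rfl)
  · unfold ax4
    rw [sat_imp]
    intro h u hu u' hu'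
    apply h
    rcases hu with rfl | rfl | rfl
    · exact hu'
    · exact Or.inr (Or.inl rfl)
    · rcases hu' with rfl | h1 | rfl
      · exact Or.inr (Or.inr rfl)
      · cases h1
      · exact Or.inr (Or.inr rfl)
  · unfold axDot2
    rw [sat_imp, sat_dia]
    rintro ⟨u, hu, h⟩ u' hu'
    rw [sat_dia]
    exact ⟨.top, Or.inr (Or.inr rfl), h .top (Or.inr (Or.inr rfl))⟩

end Pool.Agent.Results.MP_c90ce4_lc.EmbedsInS42
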